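import Mathlib.Combinatorics.SimpleGraph.Finite
import Mathlib.Combinatorics.SimpleGraph.Maps
import Mathlib.Order.ConditionallyCompleteLattice.Basic
import Mathlib.Order.Lattice.Nat

/-!
The graph parameter `f k G` and adjacency matrices.
-/

namespace Pool.Agent.Work.MP_3ff6cb_lc

open Classical in
/-- `H` has at least `k` vertices of maximum degree, or fewer than `k` vertices. -/
def Good (k : ℕ) {W : Type} [Fintype W] (H : SimpleGraph W) : Prop :=
  k ≤ (Finset.univ.filter fun v => H.degree v = H.maxDegree).card ∨ Fintype.card W < k

open Classical in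
/-- The least size of a set `B` of vertices such that `G - B` is good. -/
noncomputable def f (k : ℕ) {n : ℕ} (G : SimpleGraph (Fin n)) : ℕ :=
  sInf {m | ∃ B : Finset (Fin n), B.card = m ∧ Good k (G.induce {v | v ∉ B})}

open Classical in
/-- The adjacency matrix, as the list of its rows. -/
noncomputable def adjMat {n : ℕ} (G : SimpleGraph (Fin n)) : List (List Bool) :=
  List.ofFn fun i => List.ofFn fun j => decide (G.Adj i j)

end Pool.Agent.Work.MP_3ff6cb_lc
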