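import Pool.Agent.Work.MP_3ff6cb_lc.Structure
import Pool.Agent.Lib.Poly.BinNat
import Pool.Agent.Work.MP_3ff6cb_lc.Defs

-- merged part: Pool.Agent.Work.MP_3ff6cb_lc.Algo
section
/-!
The algorithm, its running time and its correctness.
-/

namespace Pool.Agent.Work.MP_3ff6cb_lc

open Pool.Agent.Lib.Poly Finset

/-- adjacency read from a matrix -/
def ad (M : List (List Bool)) (u v : ℕ) : Bool :=
  (u != v) && ((M.getD u []).getD v false && (M.getD v []).getD u false)

def degL (M : List (List Bool)) (A : List ℕ) (v : ℕ) : ℕ := A.countP fun w => ad M v w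

def topL (M : List (List Bool)) (A : List ℕ) (v : ℕ) : Bool :=
  A.all fun w => decide (degL M A w ≤ degL M A v)

def validL (M : List (List Bool)) (A : List ℕ) : Bool :=
  decide (3 ≤ A.countP fun v => topL M A v) || decide (A.length < 3)

def stepL (M : List (List Bool)) (A : List ℕ) : List ℕ :=
  A.filter fun v => v != (A.filter fun w => topL M A w).headD 0

def greedy (M : List (List Bool)) (i : ℕ) : List ℕ :=
  (List.range i).foldl (fun A _ => stepL M A) (List.range M.length)

def lowL (M : List (List Bool)) (Z C : List ℕ) (v : ℕ) : Bool :=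
  C.any fun c => decide (v ≤ c) &&
    Z.all fun z => ((z == v) == (z == c)) && (ad M z v == ad M z c)

def cand (M : List (List Bool)) (i : ℕ) (Z C : List ℕ) : List ℕ :=
  (greedy M i).filter fun v => !lowL M Z C v

def score (M : List (List Bool)) (A : List ℕ) : ℕ := bif validL M A then A.length else 0

def lists (n : ℕ) : ℕ → List (List ℕ)
  | 0 => [[]]
  | c + 1 => [] :: (lists n c).flatMap fun l => (List.range n).map fun x => x :: l

def scores (a b : ℕ) (M : List (List Bool)) : List ℕ :=
  (List.range (M.length + 1)).flatMap fun i => (lists M.length a).flatMap fun Z =>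
    (lists M.length b).map fun C => score M (cand M i Z C)

def algo (a b : ℕ) (M : List (List Bool)) : ℕ := M.length - (scores a b M).foldl max 0

section time

variable {α : Type} [Enc α]

@[fun_prop] theorem pt_ad {M : α → List (List Bool)} {u v : α → ℕ} (hM : PT M) (hu : PT u)
    (hv : PT v) : PT fun x => ad (M x) (u x) (v x) := by
  unfold ad; fun_prop

@[fun_prop] theorem pt_degL {M : α → List (List Bool)} {A : α → List ℕ} {v : α → ℕ} (hM : PT M)
    (hA : PT A) (hv : PT v) : PT fun x => degL (M x) (A x) (v x) := by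
  unfold degL; fun_prop

@[fun_prop] theorem pt_topL {M : α → List (List Bool)} {A : α → List ℕ} {v : α → ℕ} (hM : PT M)
    (hA : PT A) (hv : PT v) : PT fun x => topL (M x) (A x) (v x) := by
  unfold topL; fun_prop

@[fun_prop] theorem pt_validL {M : α → List (List Bool)} {A : α → List ℕ} (hM : PT M)
    (hA : PT A) : PT fun x => validL (M x) (A x) := by
  unfold validL; fun_prop

@[fun_prop] theorem pt_stepL {M : α → List (List Bool)} {A : α → List ℕ} (hM : PT M)
    (hA : PT A) : PT fun x => stepL (M x) (A x) := by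
  unfold stepL; fun_prop

theorem sz_filter_le {β : Type} [Enc β] (p : β → Bool) (l : List β) : sz (l.filter p) ≤ sz l := by
  induction l with
  | nil => simp
  | cons a l ih => cases h : p a <;> simp [h] <;> omega

@[fun_prop] theorem pt_greedy {M : α → List (List Bool)} {i : α → ℕ} (hM : PT M)
    (hi : PT i) : PT fun x => greedy (M x) (i x) := by
  unfold greedy
  exact PT.foldl (f := fun x A _ => stepL (M x) A) (by fun_prop) (by fun_prop) (by fun_prop)
    (fun _ => 0) (by fun_prop) fun a c x => sz_filter_le _ _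

@[fun_prop] theorem pt_lowL {M : α → List (List Bool)} {Z C : α → List ℕ} {v : α → ℕ}
    (hM : PT M) (hZ : PT Z) (hC : PT C) (hv : PT v) :
    PT fun x => lowL (M x) (Z x) (C x) (v x) := by
  unfold lowL; fun_prop

@[fun_prop] theorem pt_cand {M : α → List (List Bool)} {i : α → ℕ} {Z C : α → List ℕ}
    (hM : PT M) (hi : PT i) (hZ : PT Z) (hC : PT C) :
    PT fun x => cand (M x) (i x) (Z x) (C x) := by
  unfold cand; fun_prop

@[fun_prop] theorem pt_score {M : α → List (List Bool)} {A : α → List ℕ} (hM : PT M)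
    (hA : PT A) : PT fun x => score (M x) (A x) := by
  unfold score; fun_prop

@[fun_prop] theorem pt_lists {n : α → ℕ} (hn : PT n) (c : ℕ) : PT fun x => lists (n x) c := by
  induction c with
  | zero => exact PT.const _
  | succ c ih => unfold lists; fun_prop

theorem pt_scores (a b : ℕ) : PT (scores a b) := by
  unfold scores; fun_prop

theorem pt_algo (a b : ℕ) : PT (algo a b) := by
  unfold algo
  refine PT.sub (by fun_prop) ?_
  exact PT.foldl (f := fun _ (c x : ℕ) => max c x) (by fun_prop) (by fun_prop) (pt_scores a b)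
    (fun n => n) (by fun_prop) fun a c x => by simp only [sz_nat]; omega

theorem isPolyTime_algo (a b : ℕ) : N68a2faeb.IsPolyTime (algo a b) := by
  have h : PT fun M => Raw.mk (Computability.encodeNat (algo a b M)) :=
    PT.toRaw (PT.encodeNat (pt_algo a b))
  exact h.tm2 _ _ _ (fun M => M) (fun _ => rfl) fun _ => rfl

end time

section correct

/-- the graph read from a matrix -/
def gr (M : List (List Bool)) : SimpleGraph ℕ where
  Adj u v := ad M u v = true
  symm := ⟨fun u v h => by
    simp only [ad, Bool.and_eq_true, bne_iff_ne] at h ⊢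
    exact ⟨h.1.symm, h.2.2, h.2.1⟩⟩
  loopless := ⟨fun u h => by simp [ad] at h⟩

instance (M : List (List Bool)) : DecidableRel (gr M).Adj :=
  fun u v => inferInstanceAs (Decidable (ad M u v = true))

variable {M : List (List Bool)}

theorem countP_eq_card {A : List ℕ} (hA : A.Nodup) (p : ℕ → Bool) :
    A.countP p = #(A.toFinset.filter fun v => p v = true) := by
  rw [List.countP_eq_length_filter, ← List.toFinset_card_of_nodup (hA.filter _),
    List.toFinset_filter]

theorem degL_eq {A : List ℕ} (hA : A.Nodup) (v : ℕ) : degL M A v = deg (gr M) A.toFinset v :=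
  countP_eq_card hA _

theorem topL_iff {A : List ℕ} (hA : A.Nodup) {v : ℕ} (hv : v ∈ A) :
    topL M A v = true ↔ IsTopV (gr M) A.toFinset v := by
  simp [topL, IsTopV, hv, degL_eq hA]

theorem validL_iff {A : List ℕ} (hA : A.Nodup) :
    validL M A = true ↔ Valid (gr M) A.toFinset := by
  simp only [validL, Valid, Bool.or_eq_true, decide_eq_true_eq, countP_eq_card hA,
    List.toFinset_card_of_nodup hA]
  refine or_congr ?_ Iff.rfl
  rw [Nat.succ_le_iff, two_lt_card]
  simp only [mem_filter, List.mem_toFinset]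
  constructor
  · rintro ⟨x, hx, y, hy, z, hz, h1, h2, h3⟩
    exact ⟨x, y, z, h1, h2, h3, (topL_iff hA hx.1).1 hx.2, (topL_iff hA hy.1).1 hy.2,
      (topL_iff hA hz.1).1 hz.2⟩
  · rintro ⟨x, y, z, h1, h2, h3, hx, hy, hz⟩
    have hx' := List.mem_toFinset.1 hx.1
    have hy' := List.mem_toFinset.1 hy.1
    have hz' := List.mem_toFinset.1 hz.1
    exact ⟨x, ⟨hx', (topL_iff hA hx').2 hx⟩, y, ⟨hy', (topL_iff hA hy').2 hy⟩,
      z, ⟨hz', (topL_iff hA hz').2 hz⟩, h1, h2, h3⟩

theorem greedy_succ (i : ℕ) : greedy M (i + 1) = stepL M (greedy M i) := by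
  simp [greedy, List.range_succ]

theorem greedy_sublist (i : ℕ) : (greedy M i).Sublist (List.range M.length) := by
  induction i with
  | zero => exact List.Sublist.refl _
  | succ i ih => rw [greedy_succ]; exact List.filter_sublist.trans ih

theorem greedy_nodup (i : ℕ) : (greedy M i).Nodup := (greedy_sublist i).nodup List.nodup_range

theorem stepL_spec {A : List ℕ} (hA : A.Nodup) (hne : A.toFinset.Nonempty) :
    ∃ x, IsTopV (gr M) A.toFinset x ∧ (stepL M A).toFinset = A.toFinset \ {x} := by
  obtain ⟨y, hy, hmax⟩ := exists_max_image A.toFinset (deg (gr M) A.toFinset) hne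
  have hy' := List.mem_toFinset.1 hy
  have h1 : y ∈ A.filter fun w => topL M A w :=
    List.mem_filter.2 ⟨hy', (topL_iff hA hy').2 ⟨hy, hmax⟩⟩
  have h2 : (A.filter fun w => topL M A w).headD 0 ∈ A.filter fun w => topL M A w := by
    generalize (A.filter fun w => topL M A w) = l at h1
    cases l with
    | nil => cases h1
    | cons a l => simp
  obtain ⟨h3, h4⟩ := List.mem_filter.1 h2
  refine ⟨_, (topL_iff hA h3).1 h4, ?_⟩
  ext v
  simp [stepL]

theorem cand_toFinset (i : ℕ) (Z C : List ℕ) : (cand M i Z C).toFinset =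
    (greedy M i).toFinset \ low (gr M) (greedy M i).toFinset Z.toFinset C.toFinset := by
  have h : ∀ v, lowL M Z C v = true ↔
      ∃ c ∈ C.toFinset, v ≤ c ∧ Same (gr M) Z.toFinset v c := by
    intro v
    simp only [lowL, Same, List.any_eq_true, Bool.and_eq_true, decide_eq_true_eq, List.all_eq_true,
      List.mem_toFinset, beq_iff_eq, gr]
    refine exists_congr fun c => and_congr Iff.rfl (and_congr Iff.rfl
      (forall_congr' fun z => imp_congr Iff.rfl (and_congr ?_ ?_)))
    · rw [Bool.eq_iff_iff]; simp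
    · rw [Bool.eq_iff_iff]
  ext v
  simp only [cand, low, List.toFinset_filter, mem_filter, mem_sdiff, ← h]
  cases lowL M Z C v <;> simp

theorem mem_lists {n : ℕ} (c : ℕ) (l : List ℕ) (h1 : l.length ≤ c) (h2 : ∀ x ∈ l, x < n) :
    l ∈ lists n c := by
  induction c generalizing l with
  | zero => simpa [lists] using h1
  | succ c ih =>
    cases l with
    | nil => simp [lists]
    | cons a l =>
      simp only [lists, List.mem_cons, List.mem_flatMap, List.mem_map, List.mem_range]
      exact Or.inr ⟨l, ih l (by simpa using h1) fun x hx => h2 x (List.mem_cons_of_mem _ hx),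
        a, h2 a List.mem_cons_self, rfl⟩

theorem le_foldl_max (l : List ℕ) (c : ℕ) : c ≤ l.foldl max c ∧ ∀ x ∈ l, x ≤ l.foldl max c := by
  induction l generalizing c with
  | nil => simp
  | cons a l ih =>
    have := ih (max c a)
    simp only [List.foldl_cons, List.mem_cons, forall_eq_or_imp]
    exact ⟨by omega, by omega, this.2⟩

theorem foldl_max_mem (l : List ℕ) (c : ℕ) : l.foldl max c = c ∨ l.foldl max c ∈ l := by
  induction l generalizing c with
  | nil => simp
  | cons a l ih =>
    simp only [List.foldl_cons, List.mem_cons]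
    rcases ih (max c a) with h | h
    · rw [h]; omega
    · exact Or.inr (Or.inr h)

theorem reach_score (i : ℕ) (Z C : List ℕ) :
    Reach (gr M) (range M.length) (M.length - score M (cand M i Z C)) := by
  have hs : (cand M i Z C).Sublist (List.range M.length) :=
    List.filter_sublist.trans (greedy_sublist i)
  have hn := hs.nodup List.nodup_range
  unfold score
  cases h : validL M (cand M i Z C)
  · exact ⟨∅, empty_subset _, by simp, Or.inr (by simp)⟩
  · refine ⟨(cand M i Z C).toFinset, fun x hx => ?_, ?_, (validL_iff hn).1 h⟩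
    · simpa using hs.subset (List.mem_toFinset.1 hx)
    · rw [List.toFinset_card_of_nodup hn]
      simp only [card_range, cond_true]
      omega

theorem exists_algo : ∃ a b : ℕ, ∀ M : List (List Bool),
    IsLeast {t | Reach (gr M) (range M.length) t} (algo a b M) := by
  obtain ⟨a, b, hab⟩ : ∃ a b : ℕ, ∀ (M : List (List Bool)) {A : Finset ℕ} (K : ℕ → Finset ℕ),
      K 0 = A → (∀ i, (K i).Nonempty → ∃ x, IsTopV (gr M) (K i) x ∧ K (i + 1) = K i \ {x}) →
      ∀ {t : ℕ}, Reach (gr M) A t → (∀ c < t, ¬ Reach (gr M) A c) →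
      ∃ i ≤ #A, ∃ Z ⊆ A, ∃ C ⊆ A, #Z ≤ a ∧ #C ≤ b ∧
        #A ≤ #(K i \ low (gr M) (K i) Z C) + t ∧ Valid (gr M) (K i \ low (gr M) (K i) Z C) :=
    ⟨_, _, fun M _ K h0 hK _ ht hopt => structure_thm K h0 hK ht hopt⟩
  refine ⟨a, b, fun M => ?_⟩
  have hreach : Reach (gr M) (range M.length) (algo a b M) := by
    unfold algo
    rcases foldl_max_mem (scores a b M) 0 with h | h
    · rw [h]
      exact ⟨∅, empty_subset _, by simp, Or.inr (by simp)⟩
    · generalize (scores a b M).foldl max 0 = s at h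
      simp only [scores, List.mem_flatMap, List.mem_map] at h
      obtain ⟨i, -, Z, -, C, -, rfl⟩ := h
      exact reach_score i Z C
  classical
  have hex : ∃ t, Reach (gr M) (range M.length) t := ⟨_, hreach⟩
  refine ⟨hreach, fun t ht => le_trans ?_ (Nat.find_min' hex ht)⟩
  obtain ⟨i, hi, Z, hZ, C, hC, hZa, hCb, h1, h2⟩ := hab M (A := range M.length)
    (fun i => (greedy M i).toFinset) (by simp [greedy, List.toFinset_range])
    (fun i hne => by rw [greedy_succ]; exact stepL_spec (greedy_nodup i) hne)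
    (Nat.find_spec hex) fun c hc => Nat.find_min hex hc
  have e := cand_toFinset (M := M) i Z.toList C.toList
  rw [toList_toFinset, toList_toFinset] at e
  rw [← e] at h1 h2
  have hn : (cand M i Z.toList C.toList).Nodup := (greedy_nodup i).filter _
  rw [List.toFinset_card_of_nodup hn, card_range] at h1
  have hmem : score M (cand M i Z.toList C.toList) ∈ scores a b M := by
    simp only [scores, List.mem_flatMap, List.mem_map, List.mem_range]
    refine ⟨i, by simpa [Nat.lt_succ_iff] using hi, _, mem_lists a _ (by simpa using hZa) ?_,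
      _, mem_lists b _ (by simpa using hCb) ?_, rfl⟩
    · intro x hx; simpa using hZ (mem_toList.1 hx)
    · intro x hx; simpa using hC (mem_toList.1 hx)
  have h3 := (le_foldl_max (scores a b M) 0).2 _ hmem
  rw [score, (validL_iff hn).2 h2, cond_true] at h3
  unfold algo
  omega

end correct

end Pool.Agent.Work.MP_3ff6cb_lc
end

-- merged part: Pool.Agent.Work.MP_3ff6cb_lc.Bridge
section
/-!
From graphs on `Fin n` to the graphs read from their adjacency matrices.
-/

namespace Pool.Agent.Work.MP_3ff6cb_lc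

open Finset

variable {n : ℕ} (G : SimpleGraph (Fin n))

theorem length_adjMat : (adjMat G).length = n := by simp [adjMat]

theorem gr_adjMat (u v : Fin n) : (gr (adjMat G)).Adj u v ↔ G.Adj u v := by
  classical
  have h : ∀ u v : Fin n, ((adjMat G).getD u []).getD v false = true ↔ G.Adj u v := by
    intro u v
    simp [adjMat, List.getD_eq_getElem?_getD]
  simp only [gr, ad, Bool.and_eq_true, bne_iff_ne, h]
  exact ⟨fun h => h.2.1, fun h => ⟨fun e => h.ne (Fin.ext e), h, h.symm⟩⟩

theorem good_iff_ncard {W : Type} [Fintype W] (H : SimpleGraph W) : Good 3 H ↔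
    (∃ x y z, x ≠ y ∧ x ≠ z ∧ y ≠ z ∧
      (∀ w, (H.neighborSet w).ncard ≤ (H.neighborSet x).ncard) ∧
      (∀ w, (H.neighborSet w).ncard ≤ (H.neighborSet y).ncard) ∧
      (∀ w, (H.neighborSet w).ncard ≤ (H.neighborSet z).ncard)) ∨ Nat.card W < 3 := by
  unfold Good
  rw [Nat.card_eq_fintype_card, Nat.succ_le_iff, two_lt_card]
  refine or_congr ?_ Iff.rfl
  simp only [mem_filter, mem_univ, true_and]
  open Classical in
  have htop : ∀ v, H.degree v = H.maxDegree ↔
      ∀ w, (H.neighborSet w).ncard ≤ (H.neighborSet v).ncard := by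
    intro v
    have hd : ∀ w, (H.neighborSet w).ncard = H.degree w := fun w => by
      rw [← SimpleGraph.card_neighborSet_eq_degree, ← Nat.card_eq_fintype_card,
        Nat.card_coe_set_eq]
    simp only [hd]
    exact ⟨fun h w => h ▸ SimpleGraph.degree_le_maxDegree _ _, fun h => le_antisymm
      (SimpleGraph.degree_le_maxDegree _ _) (SimpleGraph.maxDegree_le_of_forall_degree_le _ _ h)⟩
  constructor
  · rintro ⟨x, hx, y, hy, z, hz, h1, h2, h3⟩
    exact ⟨x, y, z, h1, h2, h3, (htop x).1 hx, (htop y).1 hy, (htop z).1 hz⟩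
  · rintro ⟨x, y, z, h1, h2, h3, hx, hy, hz⟩
    exact ⟨x, (htop x).2 hx, y, (htop y).2 hy, z, (htop z).2 hz, h1, h2, h3⟩

theorem good_iff (B : Finset (Fin n)) [Fintype {v | v ∉ B}] : Good 3 (G.induce {v | v ∉ B}) ↔
    Valid (gr (adjMat G)) (Bᶜ.map Fin.valEmbedding) := by
  have hdeg : ∀ v : {v | v ∉ B}, ((G.induce {v | v ∉ B}).neighborSet v).ncard =
      deg (gr (adjMat G)) (Bᶜ.map Fin.valEmbedding) v.1 := by
    intro v
    rw [deg, ← Set.ncard_coe_finset]
    refine Set.ncard_congr (fun w _ => (w.1 : ℕ)) (fun w hw => ?_) (fun w w' _ _ h => ?_)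
      fun w hw => ?_
    · exact mem_coe.2 (mem_filter.2
        ⟨mem_map.2 ⟨w.1, mem_compl.2 w.2, rfl⟩, (gr_adjMat G _ _).2 hw⟩)
    · exact Subtype.ext (Fin.ext h)
    · obtain ⟨h1, h2⟩ := mem_filter.1 (mem_coe.1 hw)
      obtain ⟨u, hu, rfl⟩ := mem_map.1 h1
      exact ⟨⟨u, mem_compl.1 hu⟩, (gr_adjMat G _ _).1 h2, rfl⟩
  have htop : ∀ v : {v | v ∉ B}, (∀ w, ((G.induce {v | v ∉ B}).neighborSet w).ncard ≤
      ((G.induce {v | v ∉ B}).neighborSet v).ncard) ↔
      IsTopV (gr (adjMat G)) (Bᶜ.map Fin.valEmbedding) v.1 := by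
    intro v
    constructor
    · intro h
      refine ⟨mem_map.2 ⟨v.1, mem_compl.2 v.2, rfl⟩, fun w hw => ?_⟩
      obtain ⟨u, hu, rfl⟩ := mem_map.1 hw
      have := h ⟨u, mem_compl.1 hu⟩
      rwa [hdeg, hdeg] at this
    · intro h w
      rw [hdeg, hdeg]
      exact h.2 _ (mem_map.2 ⟨w.1, mem_compl.2 w.2, rfl⟩)
  rw [good_iff_ncard]
  unfold Valid
  refine or_congr ?_ ?_
  · constructor
    · rintro ⟨x, y, z, h1, h2, h3, hx, hy, hz⟩
      exact ⟨x.1, y.1, z.1, fun h => h1 (Subtype.ext (Fin.ext h)),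
        fun h => h2 (Subtype.ext (Fin.ext h)), fun h => h3 (Subtype.ext (Fin.ext h)),
        (htop x).1 hx, (htop y).1 hy, (htop z).1 hz⟩
    · rintro ⟨x, y, z, h1, h2, h3, hx, hy, hz⟩
      obtain ⟨x, hx', rfl⟩ := mem_map.1 hx.1
      obtain ⟨y, hy', rfl⟩ := mem_map.1 hy.1
      obtain ⟨z, hz', rfl⟩ := mem_map.1 hz.1
      refine ⟨⟨x, mem_compl.1 hx'⟩, ⟨y, mem_compl.1 hy'⟩, ⟨z, mem_compl.1 hz'⟩,
        fun h => h1 ?_, fun h => h2 ?_, fun h => h3 ?_, (htop ⟨x, mem_compl.1 hx'⟩).2 hx,
        (htop ⟨y, mem_compl.1 hy'⟩).2 hy, (htop ⟨z, mem_compl.1 hz'⟩).2 hz⟩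
      all_goals rw [Subtype.mk.inj h]
  · rw [card_map, Nat.card_eq_fintype_card, Fintype.card_of_subtype Bᶜ fun x => by simp]

theorem isLeast_f {t : ℕ} (h : IsLeast {t | Reach (gr (adjMat G)) (range n) t} t) :
    t = f 3 G := by
  classical
  have hmap : ∀ B : Finset (Fin n), B.map Fin.valEmbedding ⊆ range n := by
    intro B x hx
    obtain ⟨u, -, rfl⟩ := mem_map.1 hx
    simp
  obtain ⟨⟨A, hA, h1, h2⟩, h3⟩ := h
  let B : Finset (Fin n) := univ.filter fun v => v.1 ∉ A
  have hB : Bᶜ.map Fin.valEmbedding = A := by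
    ext x
    simp only [B, mem_map, mem_compl, mem_filter, mem_univ, true_and, not_not,
      Fin.valEmbedding_apply]
    exact ⟨by rintro ⟨u, hu, rfl⟩; exact hu, fun hx => ⟨⟨x, mem_range.1 (hA hx)⟩, hx, rfl⟩⟩
  have hc : ∀ B : Finset (Fin n), #(Bᶜ.map Fin.valEmbedding) + #B = n := fun B => by
    rw [card_map, card_compl_add_card, Fintype.card_fin]
  have hlow : ∀ (B : Finset (Fin n)) [Fintype {v | v ∉ B}],
      Good 3 (G.induce {v | v ∉ B}) → t ≤ #B := fun B _ hB =>
    h3 ⟨_, hmap Bᶜ, by rw [hc, card_range], (good_iff G B).1 hB⟩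
  have hg : ∀ [Fintype {v | v ∉ B}], Good 3 (G.induce {v | v ∉ B}) :=
    (good_iff G B).2 (hB ▸ h2)
  have ht : #B = t := by
    have := hc B
    have := hlow B hg
    rw [hB] at *
    rw [card_range] at h1
    omega
  unfold f
  symm
  refine IsLeast.csInf_eq ⟨⟨B, ht, @hg _⟩, ?_⟩
  rintro _ ⟨B', rfl, hB'⟩
  exact @hlow B' _ hB'

end Pool.Agent.Work.MP_3ff6cb_lc
end
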