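import Pool.Agent.Work.MP_3ff6cb_lc.Window
import Mathlib.Data.Finset.Powerset
import Mathlib.Data.Finset.Prod

/-!
An optimal deletion set can be found in a family of polynomial size.
-/

set_option linter.unusedSectionVars false

namespace Pool.Agent.Work.MP_3ff6cb_lc

open Finset

section
variable {V : Type} [DecidableEq V] {G : SimpleGraph V} [DecidableRel G.Adj]

theorem many_high {A : Finset V} {D t : ℕ} (hD : ∀ v ∈ A, deg G A v ≤ D + t)
    (hc : 61 ≤ #(A.filter fun v => D < deg G A v)) : Reach G A (7 * (t / 10) + 500) := by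
  let h := t / 10 + 1
  let S : ℕ → Finset V := fun i => A.filter fun v => D + i * h < deg G A v
  have h10 : #(S 10) = 0 := by
    rw [card_eq_zero, filter_eq_empty_iff]
    intro v hv
    have := hD v hv
    simp only [h]
    omega
  have h0 : 61 ≤ #(S 0) := by simpa [S] using hc
  obtain ⟨i, hi, hi'⟩ : ∃ i, #(S (i + 1)) ≤ 54 ∧ #(S (i + 1)) + 7 ≤ #(S i) := by
    by_contra! hn
    have a9 := hn 9; have a8 := hn 8; have a7 := hn 7; have a6 := hn 6; have a5 := hn 5
    have a4 := hn 4; have a3 := hn 3; have a2 := hn 2; have a1 := hn 1; have a0 := hn 0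
    simp only [Nat.reduceAdd] at a9 a8 a7 a6 a5 a4 a3 a2 a1 a0
    omega
  have hR : S (i + 1) ⊆ A := filter_subset _ _
  refine (window (G := G) (A := A \ S (i + 1)) (W := S i \ S (i + 1)) (s := h + 54)
    (sdiff_subset_sdiff (filter_subset _ _) subset_rfl) ?_ fun w hw v hv => ?_).of_sdiff.mono ?_
  · have := le_card_sdiff (S (i + 1)) (S i)
    omega
  · have e1 := deg_le_sdiff_add (G := G) hR w
    have e2 := deg_sdiff_le (G := G) A (S (i + 1)) v
    have e3 := (mem_filter.1 (mem_sdiff.1 hw).1).2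
    have e4 : deg G A v ≤ D + (i + 1) * h := by
      by_contra! h'
      exact (mem_sdiff.1 hv).2 (mem_filter.2 ⟨(mem_sdiff.1 hv).1, h'⟩)
    rw [add_mul] at e4
    omega
  · simp only [h]
    omega

end

variable (G : SimpleGraph ℕ) [DecidableRel G.Adj]

/-- same type with respect to `Z` -/
def Same (Z : Finset ℕ) (v c : ℕ) : Prop :=
  ∀ z ∈ Z, (z = v ↔ z = c) ∧ (G.Adj z v ↔ G.Adj z c)

instance (Z : Finset ℕ) (v c : ℕ) : Decidable (Same G Z v c) := by
  unfold Same; infer_instance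

/-- the vertices below a cut of the same type -/
def low (A Z C : Finset ℕ) : Finset ℕ := A.filter fun v => ∃ c ∈ C, v ≤ c ∧ Same G Z v c

variable {G}

theorem exists_low {A B Z : Finset ℕ} (hB : B ⊆ A) :
    ∃ C ⊆ A, #C ≤ 4 ^ #Z ∧ #(low G A Z C) = #B ∧ ∀ z ∈ Z, (z ∈ low G A Z C ↔ z ∈ B) ∧
      #((low G A Z C).filter (G.Adj z)) = #(B.filter (G.Adj z)) := by
  classical
  let F : Finset (Finset ℕ) := A.powerset.filter fun B' => #B' = #B ∧ ∀ z ∈ Z,
    (z ∈ B' ↔ z ∈ B) ∧ #(B'.filter (G.Adj z)) = #(B.filter (G.Adj z))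
  obtain ⟨B', hB', hmin⟩ := exists_min_image F (fun B' => ∑ v ∈ B', v)
    ⟨B, by simp [F, hB]⟩
  simp only [F, mem_filter, mem_powerset] at hB' hmin
  obtain ⟨hB'A, hcard, hZ⟩ := hB'
  have hdown : ∀ c ∈ B', ∀ v ∈ A, v ≤ c → Same G Z v c → v ∈ B' := by
    intro c hc v hv hle hs
    by_contra hvB
    have hne : v ≠ c := by rintro rfl; exact hvB hc
    have hv' : v ∉ B'.erase c := fun h => hvB (mem_of_mem_erase h)
    have := hmin (insert v (B'.erase c)) ⟨insert_subset hv ((erase_subset _ _).trans hB'A), ?_, ?_⟩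
    · rw [sum_insert hv', ← add_sum_erase B' (fun v => v) hc] at this
      omega
    · rw [card_insert_of_notMem hv', card_erase_add_one hc, hcard]
    · intro z hz
      obtain ⟨h1, h2⟩ := hs z hz
      have hzv : z ≠ v := fun h => hne (h.symm.trans (h1.1 h))
      have hzc : z ≠ c := fun h => hzv (h1.2 h)
      refine ⟨by simp [hzv, hzc, (hZ z hz).1], ?_⟩
      rw [← (hZ z hz).2, filter_insert, filter_erase]
      by_cases hadj : G.Adj z v
      · rw [if_pos hadj, card_insert_of_notMem (by simp [hvB]),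
          card_erase_add_one (by simp [hc, h2.1 hadj])]
      · rw [if_neg hadj, erase_eq_of_notMem (by simp [mt h2.2 hadj])]
  let C := B'.filter fun c => ∀ c' ∈ B', Same G Z c' c → c' ≤ c
  have hlow : low G A Z C = B' := by
    ext v
    simp only [low, mem_filter]
    constructor
    · rintro ⟨hv, c, hc, hle, hs⟩
      exact hdown c (mem_filter.1 hc).1 v hv hle hs
    · intro hv
      obtain ⟨c, hc, hmax⟩ := exists_max_image (B'.filter fun c => Same G Z v c) (fun c => c)
        ⟨v, mem_filter.2 ⟨hv, fun z _ => ⟨Iff.rfl, Iff.rfl⟩⟩⟩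
      obtain ⟨hc1, hc2⟩ := mem_filter.1 hc
      refine ⟨hB'A hv, c, mem_filter.2 ⟨hc1, fun c' hc' hs => hmax c' (mem_filter.2 ⟨hc', ?_⟩)⟩,
        hmax v (mem_filter.2 ⟨hv, fun z _ => ⟨Iff.rfl, Iff.rfl⟩⟩), hc2⟩
      exact fun z hz => ⟨(hc2 z hz).1.trans (hs z hz).1.symm, (hc2 z hz).2.trans (hs z hz).2.symm⟩
  refine ⟨C, (filter_subset _ _).trans hB'A, ?_, by rw [hlow, hcard], by rw [hlow]; exact hZ⟩
  have : #C ≤ #(Z.powerset ×ˢ Z.powerset) := by
    refine card_le_card_of_injOn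
      (fun c => (Z.filter fun z => z = c, Z.filter fun z => G.Adj z c)) ?_ ?_
    · intro c _
      simp only [coe_product, Set.mem_prod, mem_coe, mem_powerset]
      exact ⟨filter_subset _ _, filter_subset _ _⟩
    · intro c hc c' hc' h
      have hc := mem_filter.1 (mem_coe.1 hc)
      have hc' := mem_filter.1 (mem_coe.1 hc')
      simp only [Prod.mk.injEq, Finset.ext_iff, mem_filter, and_congr_right_iff] at h
      have hs : Same G Z c c' := fun z hz => ⟨h.1 z hz, h.2 z hz⟩
      exact le_antisymm (hc'.2 c hc.1 hs)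
        (hc.2 c' hc'.1 fun z hz => ⟨(hs z hz).1.symm, (hs z hz).2.symm⟩)
  rw [card_product, card_powerset, ← mul_pow] at this
  simpa using this

/-- after the forced deletions, an optimal set is of bounded description -/
theorem exists_low_valid {A B : Finset ℕ} (hB : B ⊆ A)
    (hopt : ∀ c < #B, ¬ Reach G A c) {x u v w : ℕ} (hx : IsTopV G A x) (hxB : x ∉ B)
    (huv : u ≠ v) (huw : u ≠ w) (hvw : v ≠ w) (hu : IsTopV G (A \ B) u)
    (hv : IsTopV G (A \ B) v) (hw : IsTopV G (A \ B) w) :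
    ∃ Z ⊆ A, ∃ C ⊆ A, #Z ≤ 2000 ∧ #C ≤ 4 ^ #Z ∧ #(low G A Z C) = #B ∧
      Valid G (A \ low G A Z C) := by
  by_cases hsmall : #B ≤ 2000
  · obtain ⟨C, hC, h1, h2, h3⟩ := exists_low (G := G) (Z := B) hB
    refine ⟨B, hB, C, hC, hsmall, h1, h2, ?_⟩
    have : B = low G A B C :=
      eq_of_subset_of_card_le (fun z hz => (h3 z hz).1.2 hz) h2.le
    rw [← this]
    exact Or.inl ⟨u, v, w, huv, huw, hvw, hu, hv, hw⟩
  set D := deg G (A \ B) u with hD
  have hDt : ∀ y ∈ A, deg G A y ≤ D + #B := by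
    intro y hy
    have h1 := hx.2 y hy
    have h2 := deg_le_sdiff_add (G := G) hB x
    have h3 := hu.2 x (mem_sdiff.2 ⟨hx.1, hxB⟩)
    omega
  have hfew : #(A.filter fun y => D < deg G A y) ≤ 60 := by
    by_contra! h
    exact hopt _ (by omega) (many_high hDt h)
  let Z := insert u (insert v (insert w (A.filter fun y => D < deg G A y)))
  have hZA : Z ⊆ A := insert_subset (mem_sdiff.1 hu.1).1 (insert_subset (mem_sdiff.1 hv.1).1
    (insert_subset (mem_sdiff.1 hw.1).1 (filter_subset _ _)))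
  have hZc : #Z ≤ 2000 := by
    have a := card_insert_le u (insert v (insert w (A.filter fun y => D < deg G A y)))
    have b := card_insert_le v (insert w (A.filter fun y => D < deg G A y))
    have c := card_insert_le w (A.filter fun y => D < deg G A y)
    simp only [Z]
    omega
  obtain ⟨C, hC, h1, h2, h3⟩ := exists_low (G := G) (Z := Z) hB
  refine ⟨Z, hZA, C, hC, hZc, h1, h2, ?_⟩
  have hL : low G A Z C ⊆ A := filter_subset _ _
  have hdeg : ∀ z ∈ Z, deg G (A \ low G A Z C) z = deg G (A \ B) z := by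
    intro z hz
    have e1 := deg_sdiff_add (G := G) hL z
    have e2 := deg_sdiff_add (G := G) hB z
    have := (h3 z hz).2
    omega
  have hall : ∀ y ∈ A \ low G A Z C, deg G (A \ low G A Z C) y ≤ D := by
    intro y hy
    obtain ⟨hy1, hy2⟩ := mem_sdiff.1 hy
    by_cases hyZ : y ∈ Z
    · rw [hdeg y hyZ]
      exact hu.2 y (mem_sdiff.2 ⟨hy1, fun h => hy2 ((h3 y hyZ).1.2 h)⟩)
    · have := deg_sdiff_le (G := G) A (low G A Z C) y
      have : ¬ D < deg G A y := fun h => hyZ (by simp [Z, hy1, h])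
      omega
  have htop : ∀ z ∈ Z, IsTopV G (A \ B) z → IsTopV G (A \ low G A Z C) z := by
    intro z hz ht
    refine ⟨mem_sdiff.2 ⟨(mem_sdiff.1 ht.1).1, fun h => (mem_sdiff.1 ht.1).2 ((h3 z hz).1.1 h)⟩,
      fun y hy => (hall y hy).trans ?_⟩
    rw [hdeg z hz]
    exact ht.2 u hu.1
  exact Or.inl ⟨u, v, w, huv, huw, hvw, htop u (by simp [Z]) hu, htop v (by simp [Z]) hv,
    htop w (by simp [Z]) hw⟩

/-- main structure theorem: `K i` is the set that remains after `i` greedy deletions -/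
theorem structure_thm {A : Finset ℕ} (K : ℕ → Finset ℕ) (h0 : K 0 = A)
    (hK : ∀ i, (K i).Nonempty → ∃ x, IsTopV G (K i) x ∧ K (i + 1) = K i \ {x}) {t : ℕ}
    (ht : Reach G A t) (hopt : ∀ c < t, ¬ Reach G A c) :
    ∃ i ≤ #A, ∃ Z ⊆ A, ∃ C ⊆ A, #Z ≤ 2000 ∧ #C ≤ 4 ^ 2000 ∧
      #A ≤ #(K i \ low G (K i) Z C) + t ∧ Valid G (K i \ low G (K i) Z C) := by
  obtain ⟨A', hA', hc, hv⟩ := ht
  have hcard : ∀ i ≤ #A, #(K i) + i = #A ∧ K i ⊆ A := by
    intro i
    induction i with
    | zero => simp [h0]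
    | succ i ih =>
      intro hi
      obtain ⟨h1, h2⟩ := ih (by omega)
      obtain ⟨x, hx, he⟩ := hK i (card_pos.1 (by omega))
      rw [he, sdiff_singleton_eq_erase]
      have := card_erase_add_one hx.1
      exact ⟨by omega, (erase_subset _ _).trans h2⟩
  have hA'c := card_le_card hA'
  rcases hv with ⟨u, v, w, huv, huw, hvw, hu, hv, hw⟩ | hsm
  swap
  · refine ⟨#A - #A', by omega, ∅, empty_subset _, ∅, empty_subset _, by simp, by simp, ?_⟩
    have := (hcard (#A - #A') (by omega)).1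
    have e : low G (K (#A - #A')) ∅ ∅ = ∅ := by simp [low]
    rw [e, sdiff_empty]
    exact ⟨by omega, Or.inr (by omega)⟩
  have hex : ∃ i, ¬ A' ⊆ K (i + 1) ∨ #A ≤ i := ⟨#A, Or.inr le_rfl⟩
  classical
  let i := Nat.find hex
  have hiA : i ≤ #A := Nat.find_min' hex (Or.inr le_rfl)
  have hsub : A' ⊆ K i := by
    rcases hi : i with _ | j
    · rw [h0]; exact hA'
    · have := Nat.find_min hex (m := j) (by omega)
      push Not at this
      exact this.1
  obtain ⟨hci, hKA⟩ := hcard i hiA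
  have hpos : 0 < #A' := card_pos.2 ⟨u, hu.1⟩
  have hcs := card_le_card hsub
  have hnot : ¬ A' ⊆ K (i + 1) := (Nat.find_spec hex).resolve_right (by
    change ¬ #A ≤ i
    omega)
  obtain ⟨x, hx, he⟩ := hK i (card_pos.1 (by omega))
  have hxA' : x ∈ A' := by
    by_contra hn
    refine hnot fun y hy => ?_
    rw [he]
    exact mem_sdiff.2 ⟨hsub hy, by rintro h; rw [mem_singleton.1 h] at hy; exact hn hy⟩
  have hss : K i \ (K i \ A') = A' := Finset.sdiff_sdiff_eq_self hsub
  have hBc : #(K i \ A') + #A' = #(K i) := card_sdiff_add_card_eq_card hsub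
  obtain ⟨Z, hZ, C, hC, h1, h2, h3, h4⟩ := exists_low_valid (G := G) (A := K i) (B := K i \ A')
    sdiff_subset (fun c hc' hr => by
      obtain ⟨A'', a1, a2, a3⟩ := hr
      exact hopt (c + i) (by omega) ⟨A'', a1.trans hKA, by omega, a3⟩)
    hx (by simp [hxA']) huv huw hvw (by rwa [hss]) (by rwa [hss]) (by rwa [hss])
  refine ⟨i, hiA, Z, hZ.trans hKA, C, hC.trans hKA, h1,
    h2.trans (Nat.pow_le_pow_right (by norm_num) h1), ?_, h4⟩
  have := le_card_sdiff (low G (K i) Z C) (K i)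
  omega

end Pool.Agent.Work.MP_3ff6cb_lc
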