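import Mathlib.Combinatorics.SimpleGraph.Basic
import Mathlib.Data.Finset.Max
import Mathlib.Data.Finset.Card
import Mathlib.Tactic

/-!
If seven vertices have degree within `s` of the maximum, three maximum degrees can be equated by
deleting at most `9 s + 14` vertices.
-/

namespace Pool.Agent.Work.MP_3ff6cb_lc

open Finset

variable {V : Type} [DecidableEq V] (G : SimpleGraph V) [DecidableRel G.Adj]

/-- degree inside the active set -/
def deg (A : Finset V) (v : V) : ℕ := #(A.filter (G.Adj v))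

/-- vertex of maximum degree -/
def IsTopV (A : Finset V) (v : V) : Prop := v ∈ A ∧ ∀ w ∈ A, deg G A w ≤ deg G A v

/-- vertex of second largest degree -/
def IsSecond (A : Finset V) (x y : V) : Prop :=
  y ∈ A ∧ y ≠ x ∧ ∀ w ∈ A, w ≠ x → deg G A w ≤ deg G A y

/-- three vertices of maximum degree, or fewer than three vertices -/
def Valid (A : Finset V) : Prop :=
  (∃ x y z, x ≠ y ∧ x ≠ z ∧ y ≠ z ∧ IsTopV G A x ∧ IsTopV G A y ∧ IsTopV G A z) ∨ #A < 3

/-- a valid set can be reached by deleting at most `c` vertices -/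
def Reach (A : Finset V) (c : ℕ) : Prop := ∃ A' ⊆ A, #A ≤ #A' + c ∧ Valid G A'

/-- private neighbours -/
def priv (A : Finset V) (x z : V) : Finset V :=
  A.filter fun p => G.Adj x p ∧ ¬ G.Adj z p ∧ p ≠ z

variable {G}

theorem mem_priv {A : Finset V} {x z p : V} :
    p ∈ priv G A x z ↔ p ∈ A ∧ G.Adj x p ∧ ¬ G.Adj z p ∧ p ≠ z := by simp [priv]

theorem Valid.reach {A : Finset V} (h : Valid G A) (c : ℕ) : Reach G A c :=
  ⟨A, subset_rfl, by omega, h⟩

theorem Reach.mono {A : Finset V} {c c' : ℕ} (h : Reach G A c) (hc : c ≤ c') : Reach G A c' := by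
  obtain ⟨A', h1, h2, h3⟩ := h
  exact ⟨A', h1, by omega, h3⟩

theorem Reach.of_sdiff {A R : Finset V} {c : ℕ} (h : Reach G (A \ R) c) :
    Reach G A (#R + c) := by
  obtain ⟨A', h1, h2, h3⟩ := h
  refine ⟨A', h1.trans sdiff_subset, ?_, h3⟩
  have := le_card_sdiff R A
  omega

theorem deg_sdiff_add {A R : Finset V} (hR : R ⊆ A) (v : V) :
    deg G (A \ R) v + #(R.filter (G.Adj v)) = deg G A v := by
  unfold deg
  rw [← card_union_of_disjoint, ← filter_union, sdiff_union_of_subset hR]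
  exact disjoint_filter_filter sdiff_disjoint

theorem deg_sdiff_le (A R : Finset V) (v : V) : deg G (A \ R) v ≤ deg G A v :=
  card_le_card (filter_subset_filter _ sdiff_subset)

theorem deg_le_sdiff_add {A R : Finset V} (hR : R ⊆ A) (v : V) :
    deg G A v ≤ deg G (A \ R) v + #R := by
  have := deg_sdiff_add (G := G) hR v
  have := card_filter_le R (G.Adj v)
  omega

theorem deg_sdiff_of_not_adj {A R : Finset V} (hR : R ⊆ A) {v : V} (h : ∀ p ∈ R, ¬ G.Adj v p) :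
    deg G (A \ R) v = deg G A v := by
  have := deg_sdiff_add (G := G) hR v
  rw [filter_false_of_mem h] at this
  simpa using this

theorem deg_sdiff_of_adj {A R : Finset V} (hR : R ⊆ A) {v : V} (h : ∀ p ∈ R, G.Adj v p) :
    deg G (A \ R) v + #R = deg G A v := by
  have := deg_sdiff_add (G := G) hR v
  rwa [filter_true_of_mem h] at this

theorem deg_add_priv {A : Finset V} {x z : V} (hx : x ∈ A) (hz : z ∈ A) :
    deg G A x + #(priv G A z x) = deg G A z + #(priv G A x z) := by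
  have key : ∀ x z : V, z ∈ A → deg G A x = #(priv G A x z) +
      #(A.filter fun p => G.Adj x p ∧ G.Adj z p) + if G.Adj x z then 1 else 0 := by
    intro x z hz
    have h1 : A.filter (G.Adj x) = (priv G A x z ∪ A.filter fun p => G.Adj x p ∧ G.Adj z p) ∪
        ({z} : Finset V).filter (G.Adj x) := by
      ext p
      simp only [mem_filter, mem_union, mem_priv, mem_singleton]
      by_cases hp : p = z
      · subst hp; simp [hz]
      · tauto
    unfold deg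
    rw [h1, card_union_of_disjoint, card_union_of_disjoint]
    · congr 1
      rw [filter_singleton]
      split_ifs <;> simp
    · rw [disjoint_left]
      intro p hp hp'
      exact (mem_priv.1 hp).2.2.1 (mem_filter.1 hp').2.2
    · rw [disjoint_left]
      intro p hp hp'
      have hpz : p = z := by simpa using (mem_filter.1 hp').1
      subst hpz
      rcases mem_union.1 hp with h | h
      · exact (mem_priv.1 h).2.2.2 rfl
      · exact G.irrefl (mem_filter.1 h).2.2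
  rw [key x z hz, key z x hx]
  have h2 : (A.filter fun p => G.Adj z p ∧ G.Adj x p) = A.filter fun p => G.Adj x p ∧ G.Adj z p :=
    filter_congr fun p _ => and_comm
  rw [h2]
  simp only [G.adj_comm z x]
  omega

theorem lt_of_not_valid {A : Finset V} {x y : V} (hx : IsTopV G A x) (hy : IsTopV G A y)
    (hxy : x ≠ y) (hv : ¬ Valid G A) {w : V} (hw : w ∈ A) (hwx : w ≠ x) (hwy : w ≠ y) :
    deg G A w < deg G A x := by
  by_contra! h
  exact hv (Or.inl ⟨x, y, w, hxy, hwx.symm, hwy.symm, hx, hy,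
    hw, fun v hv => (hx.2 v hv).trans h⟩)

/-- one step lowering a tied pair -/
theorem exists_step {A : Finset V} {x y z p q : V} (hx : IsTopV G A x) (hy : IsTopV G A y)
    (hxy : x ≠ y) (hv : ¬ Valid G A) (hp : p ∈ priv G A x z) (hpy : p ≠ y)
    (hq : q ∈ priv G A y z) (hqx : q ≠ x) :
    ∃ R ⊆ A, #R ≤ 2 ∧ (∀ r ∈ R, (G.Adj x r ∨ G.Adj y r) ∧ ¬ G.Adj z r ∧ r ≠ z) ∧
      IsTopV G (A \ R) x ∧ IsTopV G (A \ R) y ∧ deg G (A \ R) x + 1 = deg G A x := by
  obtain ⟨hpA, hxp, hzp, hpz⟩ := mem_priv.1 hp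
  obtain ⟨hqA, hyq, hzq, hqz⟩ := mem_priv.1 hq
  have hxy' : deg G A x = deg G A y := le_antisymm (hy.2 x hx.1) (hx.2 y hy.1)
  have main : ∀ R ⊆ A, x ∉ R → y ∉ R → #(R.filter (G.Adj x)) = 1 → #(R.filter (G.Adj y)) = 1 →
      IsTopV G (A \ R) x ∧ IsTopV G (A \ R) y ∧ deg G (A \ R) x + 1 = deg G A x := by
    intro R hR hxR hyR h1 h2
    have e1 := deg_sdiff_add (G := G) hR x
    have e2 := deg_sdiff_add (G := G) hR y
    have hall : ∀ w ∈ A \ R, deg G (A \ R) w ≤ deg G (A \ R) x := by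
      intro w hw
      by_cases hwx : w = x
      · rw [hwx]
      by_cases hwy : w = y
      · rw [hwy]; omega
      have := lt_of_not_valid hx hy hxy hv (mem_sdiff.1 hw).1 hwx hwy
      have := deg_sdiff_le (G := G) A R w
      omega
    exact ⟨⟨mem_sdiff.2 ⟨hx.1, hxR⟩, hall⟩,
      ⟨mem_sdiff.2 ⟨hy.1, hyR⟩, fun w hw => (hall w hw).trans (by omega)⟩, by omega⟩
  have hpx : p ≠ x := hxp.ne'
  have hqy : q ≠ y := hyq.ne'
  by_cases h1 : G.Adj y p
  · refine ⟨{p}, by simpa, by simp, by simp [hxp, hzp, hpz], main _ (by simpa) ?_ ?_ ?_ ?_⟩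
    · simpa using hpx.symm
    · simpa using hpy.symm
    · simp [filter_singleton, hxp]
    · simp [filter_singleton, h1]
  by_cases h2 : G.Adj x q
  · refine ⟨{q}, by simpa, by simp, by simp [hyq, hzq, hqz], main _ (by simpa) ?_ ?_ ?_ ?_⟩
    · simpa using hqx.symm
    · simpa using hqy.symm
    · simp [filter_singleton, h2]
    · simp [filter_singleton, hyq]
  · have hsub : ({p, q} : Finset V) ⊆ A := by
      intro r hr
      rcases mem_insert.1 hr with rfl | hr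
      · exact hpA
      · rw [mem_singleton.1 hr]; exact hqA
    refine ⟨{p, q}, hsub, card_le_two, ?_, main _ hsub ?_ ?_ ?_ ?_⟩
    · simp [hxp, hzp, hpz, hyq, hzq, hqz]
    · simp [hpx.symm, hqx.symm]
    · simp [hpy.symm, hqy.symm]
    · simp [filter_insert, filter_singleton, hxp, h2]
    · simp [filter_insert, filter_singleton, hyq, h1]

theorem exists_priv_ne {A : Finset V} {x y z : V} (hx : x ∈ A) (hz : z ∈ A)
    (hlt : deg G A z < deg G A x)
    (hC : ¬ (G.Adj x y ∧ ¬ G.Adj y z) ∨ (priv G A z x).Nonempty) :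
    ∃ p ∈ priv G A x z, p ≠ y := by
  have h := deg_add_priv (G := G) hx hz
  rcases hC with hC | hC
  · obtain ⟨p, hp⟩ : (priv G A x z).Nonempty := card_pos.1 (by omega)
    refine ⟨p, hp, ?_⟩
    rintro rfl
    obtain ⟨-, h1, h2, -⟩ := mem_priv.1 hp
    exact hC ⟨h1, fun h => h2 h.symm⟩
  · have := card_pos.2 hC
    exact exists_mem_ne (by omega) y

theorem priv_nonempty_sdiff {A R : Finset V} {x z : V} (h : (priv G A z x).Nonempty)
    (hR : ∀ r ∈ R, ¬ G.Adj z r) : (priv G (A \ R) z x).Nonempty := by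
  obtain ⟨p, hp⟩ := h
  obtain ⟨h1, h2, h3⟩ := mem_priv.1 hp
  exact ⟨p, mem_priv.2 ⟨mem_sdiff.2 ⟨h1, fun hr => hR p hr h2⟩, h2, h3⟩⟩

theorem phase2 {x y z : V} (hxy : x ≠ y) (hzx : z ≠ x) (hzy : z ≠ y) (g : ℕ) :
    ∀ A : Finset V, IsTopV G A x → IsTopV G A y → z ∈ A → deg G A x ≤ deg G A z + g →
      (¬ (G.Adj x y ∧ ¬ G.Adj y z) ∨ (priv G A z x).Nonempty) →
      (¬ (G.Adj y x ∧ ¬ G.Adj x z) ∨ (priv G A z y).Nonempty) → Reach G A (2 * g) := by
  induction g with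
  | zero =>
    intro A hx hy hz hg _ _
    exact Valid.reach (Or.inl ⟨x, y, z, hxy, hzx.symm, hzy.symm, hx, hy, hz,
      fun w hw => (hx.2 w hw).trans hg⟩) _
  | succ g ih =>
    intro A hx hy hz hg hCx hCy
    by_cases hv : Valid G A
    · exact hv.reach _
    have hlt := lt_of_not_valid hx hy hxy hv hz hzx hzy
    obtain ⟨p, hp, hpy⟩ := exists_priv_ne hx.1 hz hlt hCx
    obtain ⟨q, hq, hqx⟩ := exists_priv_ne hy.1 hz (hlt.trans_le (hy.2 x hx.1)) hCy
    obtain ⟨R, hR, hc, hRz, hx', hy', hd⟩ := exists_step hx hy hxy hv hp hpy hq hqx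
    have hz' : deg G (A \ R) z = deg G A z := deg_sdiff_of_not_adj hR fun r hr => (hRz r hr).2.1
    refine (ih (A \ R) hx' hy' (mem_sdiff.2 ⟨hz, fun h => (hRz z h).2.2 rfl⟩) (by omega)
      (hCx.imp_right fun h => priv_nonempty_sdiff h fun r hr => (hRz r hr).2.1)
      (hCy.imp_right fun h => priv_nonempty_sdiff h fun r hr => (hRz r hr).2.1)).of_sdiff.mono ?_
    omega

theorem stuck {A : Finset V} {x y z z' : V} (hxy : x ≠ y) (hzx : z ≠ x) (hzy : z ≠ y)
    (hzx' : z' ≠ x) (hzy' : z' ≠ y) (hzz : z' ≠ z) (hx : IsTopV G A x) (hy : IsTopV G A y)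
    (hz : z ∈ A) (hz' : z' ∈ A) (hv : ¬ Valid G A) (a1 : ¬ G.Adj x z) (a2 : ¬ G.Adj y z)
    {g' : ℕ} (hg' : deg G A x ≤ deg G A z' + g') (hst : ∀ p ∈ priv G A x z, p = y) :
    Reach G A (2 * g' + 1) := by
  have hlt := lt_of_not_valid hx hy hxy hv hz hzx hzy
  have h := deg_add_priv (G := G) hx.1 hz
  have hc : #(priv G A x z) ≤ 1 := card_le_one.2 fun a ha b hb => (hst a ha).trans (hst b hb).symm
  obtain ⟨p, hp⟩ : (priv G A x z).Nonempty := card_pos.1 (by omega)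
  have hadj : G.Adj x y := hst p hp ▸ (mem_priv.1 hp).2.1
  have hR : ({y} : Finset V) ⊆ A := by simpa using hy.1
  have e1 := deg_sdiff_of_adj (G := G) hR (v := x) (by simpa)
  have e2 := deg_sdiff_of_not_adj (G := G) hR (v := z) (by simpa using fun h => a2 h.symm)
  have e3 := deg_le_sdiff_add (G := G) hR z'
  rw [card_singleton] at e1 e3
  have hall : ∀ w ∈ A \ {y}, deg G (A \ {y}) w ≤ deg G (A \ {y}) x := by
    intro w hw
    by_cases hwx : w = x
    · rw [hwx]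
    have := lt_of_not_valid hx hy hxy hv (mem_sdiff.1 hw).1 hwx (by simpa using (mem_sdiff.1 hw).2)
    have := deg_sdiff_le (G := G) A {y} w
    omega
  refine (phase2 hzx.symm hzx' hzz g' (A \ {y}) ⟨by simp [hx.1, hxy], hall⟩
    ⟨by simp [hz, hzy], fun w hw => (hall w hw).trans (by omega)⟩ (by simp [hz', hzy'])
    (by omega) (Or.inl fun h => a1 h.1) (Or.inl fun h => a1 h.1.symm)).of_sdiff.mono ?_
  simp [add_comm]

theorem phase2' {x y z z' : V} (hxy : x ≠ y) (hzx : z ≠ x) (hzy : z ≠ y)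
    (hzx' : z' ≠ x) (hzy' : z' ≠ y) (hzz : z' ≠ z) (a1 : ¬ G.Adj x z) (a2 : ¬ G.Adj y z)
    (a3 : ¬ G.Adj x z') (a4 : ¬ G.Adj y z') (g : ℕ) :
    ∀ (A : Finset V) (g' : ℕ), IsTopV G A x → IsTopV G A y → z ∈ A → z' ∈ A →
      deg G A x ≤ deg G A z + g → deg G A x ≤ deg G A z' + g' →
      Reach G A (4 * g + 2 * g' + 1) := by
  induction g with
  | zero =>
    intro A g' hx hy hz _ hg _
    exact Valid.reach (Or.inl ⟨x, y, z, hxy, hzx.symm, hzy.symm, hx, hy, hz,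
      fun w hw => (hx.2 w hw).trans hg⟩) _
  | succ g ih =>
    intro A g' hx hy hz hz' hg hg'
    by_cases hv : Valid G A
    · exact hv.reach _
    by_cases h1 : ∀ p ∈ priv G A x z, p = y
    · exact (stuck hxy hzx hzy hzx' hzy' hzz hx hy hz hz' hv a1 a2 hg' h1).mono (by omega)
    by_cases h2 : ∀ p ∈ priv G A y z, p = x
    · exact (stuck hxy.symm hzy hzx hzy' hzx' hzz hy hx hz hz' hv a2 a1
        ((hx.2 y hy.1).trans hg') h2).mono (by omega)
    push Not at h1 h2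
    obtain ⟨p, hp, hpy⟩ := h1
    obtain ⟨q, hq, hqx⟩ := h2
    obtain ⟨R, hR, hc, hRz, hx', hy', hd⟩ := exists_step hx hy hxy hv hp hpy hq hqx
    have e1 : deg G (A \ R) z = deg G A z := deg_sdiff_of_not_adj hR fun r hr => (hRz r hr).2.1
    have e2 := deg_le_sdiff_add (G := G) hR z'
    refine (ih (A \ R) (g' + 1) hx' hy' (mem_sdiff.2 ⟨hz, fun h => (hRz z h).2.2 rfl⟩)
      (mem_sdiff.2 ⟨hz', fun h => (hRz z' h).1.elim a3 a4⟩) (by omega) (by omega)).of_sdiff.mono ?_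
    omega

theorem phase1 {A P : Finset V} {x y : V} (hx : IsTopV G A x) (hy : IsSecond G A x y)
    (hP : deg G A x ≤ deg G A y + #(priv G A x y \ P)) :
    ∃ R ⊆ priv G A x y \ P, deg G A y + #R = deg G A x ∧
      IsTopV G (A \ R) x ∧ IsTopV G (A \ R) y ∧ deg G (A \ R) x = deg G A y := by
  have hle := hx.2 y hy.1
  obtain ⟨R, hR, hc⟩ := exists_subset_card_eq (s := priv G A x y \ P)
    (n := deg G A x - deg G A y) (by omega)
  have hR' : ∀ r ∈ R, r ∈ A ∧ G.Adj x r ∧ ¬ G.Adj y r ∧ r ≠ y := fun r hr =>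
    mem_priv.1 (mem_sdiff.1 (hR hr)).1
  have hRA : R ⊆ A := fun r hr => (hR' r hr).1
  have e1 := deg_sdiff_of_adj (G := G) hRA (v := x) fun r hr => (hR' r hr).2.1
  have e2 := deg_sdiff_of_not_adj (G := G) hRA (v := y) fun r hr => (hR' r hr).2.2.1
  have hall : ∀ w ∈ A \ R, deg G (A \ R) w ≤ deg G (A \ R) x := by
    intro w hw
    by_cases hwx : w = x
    · rw [hwx]
    have := hy.2.2 w (mem_sdiff.1 hw).1 hwx
    have := deg_sdiff_le (G := G) A R w
    omega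
  exact ⟨R, hR, by omega, ⟨mem_sdiff.2 ⟨hx.1, fun h => G.irrefl (hR' x h).2.1⟩, hall⟩,
    ⟨mem_sdiff.2 ⟨hy.1, fun h => (hR' y h).2.2.2 rfl⟩,
      fun w hw => (hall w hw).trans (by omega)⟩, by omega⟩

theorem phase12 {A : Finset V} {x y z : V} {s : ℕ} (hx : IsTopV G A x) (hy : IsSecond G A x y)
    (hz : z ∈ A) (hzx : z ≠ x) (hzy : z ≠ y) (hs : deg G A x ≤ deg G A z + s)
    (h1 : ¬ (G.Adj x y ∧ ¬ G.Adj y z)) (h2 : ¬ (G.Adj x z ∧ ¬ G.Adj y z))
    (h3 : ¬ (G.Adj y x ∧ ¬ G.Adj x z) ∨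
      ((priv G A z y).Nonempty ∧ (priv G A y x).Nonempty)) : Reach G A (3 * s) := by
  have hd := deg_add_priv (G := G) hx.1 hy.1
  have hzy' := hy.2.2 z hz hzx
  obtain ⟨P, hP, hP'⟩ : ∃ P : Finset V, deg G A x ≤ deg G A y + #(priv G A x y \ P) ∧
      (¬ (G.Adj y x ∧ ¬ G.Adj x z) ∨ ∃ p ∈ priv G A z y, p ∈ P) := by
    rcases h3 with h3 | ⟨⟨p, hp⟩, h4⟩
    · exact ⟨∅, by rw [sdiff_empty]; omega, Or.inl h3⟩
    · refine ⟨{p}, ?_, Or.inr ⟨p, hp, by simp⟩⟩
      have := le_card_sdiff {p} (priv G A x y)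
      have := card_pos.2 h4
      rw [card_singleton] at *
      omega
  obtain ⟨R, hR, hc, hx', hy', hd'⟩ := phase1 hx hy hP
  have hR' : ∀ r ∈ R, r ∈ A ∧ G.Adj x r ∧ ¬ G.Adj y r ∧ r ≠ y := fun r hr =>
    mem_priv.1 (mem_sdiff.1 (hR hr)).1
  have hRA : R ⊆ A := fun r hr => (hR' r hr).1
  have e := deg_le_sdiff_add (G := G) hRA z
  refine (phase2 hy.2.1.symm hzx hzy s (A \ R) hx' hy'
    (mem_sdiff.2 ⟨hz, fun h => h2 ⟨(hR' z h).2.1, (hR' z h).2.2.1⟩⟩) (by omega) (Or.inl h1)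
    (hP'.imp_right ?_)).of_sdiff.mono (by omega)
  rintro ⟨p, hp, hpP⟩
  obtain ⟨a, b, c⟩ := mem_priv.1 hp
  exact ⟨p, mem_priv.2 ⟨mem_sdiff.2 ⟨a, fun h => (mem_sdiff.1 (hR h)).2 hpP⟩, b, c⟩⟩

theorem phase12' {A : Finset V} {x y z z' : V} {s : ℕ} (hx : IsTopV G A x)
    (hy : IsSecond G A x y) (hz : z ∈ A) (hz' : z' ∈ A) (hzx : z ≠ x) (hzy : z ≠ y)
    (hzx' : z' ≠ x) (hzy' : z' ≠ y) (hzz : z' ≠ z) (a1 : ¬ G.Adj x z) (a2 : ¬ G.Adj y z)
    (a3 : ¬ G.Adj x z') (a4 : ¬ G.Adj y z') (hs : deg G A x ≤ deg G A z + s)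
    (hs' : deg G A x ≤ deg G A z' + s) : Reach G A (7 * s + 1) := by
  have hd := deg_add_priv (G := G) hx.1 hy.1
  have hzy' := hy.2.2 z hz hzx
  obtain ⟨R, hR, hc, hx', hy', hd'⟩ := phase1 (P := ∅) hx hy (by rw [sdiff_empty]; omega)
  have hR' : ∀ r ∈ R, r ∈ A ∧ G.Adj x r ∧ ¬ G.Adj y r ∧ r ≠ y := fun r hr =>
    mem_priv.1 (mem_sdiff.1 (hR hr)).1
  have hRA : R ⊆ A := fun r hr => (hR' r hr).1
  have e := deg_le_sdiff_add (G := G) hRA z
  have e' := deg_le_sdiff_add (G := G) hRA z'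
  refine (phase2' hy.2.1.symm hzx hzy hzx' ‹z' ≠ y› hzz a1 a2 a3 a4 s (A \ R) s hx' hy'
    (mem_sdiff.2 ⟨hz, fun h => a1 (hR' z h).2.1⟩) (mem_sdiff.2 ⟨hz', fun h => a3 (hR' z' h).2.1⟩)
    (by omega) (by omega)).of_sdiff.mono (by omega)

theorem exists_second {A : Finset V} {x z : V} (hz : z ∈ A) (hzx : z ≠ x) :
    ∃ y, IsSecond G A x y ∧ IsTopV G (A \ {x}) y := by
  obtain ⟨y, hy, hmax⟩ := exists_max_image (A \ {x})
    (fun y => deg G A y + deg G (A \ {x}) y) ⟨z, by simp [hz, hzx]⟩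
  have key : ∀ w, deg G (A \ {x}) w ≤ deg G A w ∧ deg G A w ≤ deg G (A \ {x}) w + 1 := by
    intro w
    refine ⟨deg_sdiff_le _ _ _, ?_⟩
    by_cases hx : x ∈ A
    · simpa using deg_le_sdiff_add (G := G) (R := {x}) (by simpa) w
    · rw [sdiff_eq_self_of_disjoint (by simpa)]; omega
  have hy' := mem_sdiff.1 hy
  refine ⟨y, ⟨hy'.1, by simpa using hy'.2, fun w hw hwx => ?_⟩, hy, fun w hw => ?_⟩
  · have := hmax w (by simp [hw, hwx])
    have := key w
    have := key y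
    omega
  · have := hmax w hw
    have := key w
    have := key y
    omega

theorem round {A Z : Finset V} {x y : V} {s : ℕ} (hx : IsTopV G A x) (hy : IsSecond G A x y)
    (hZ : ∀ z ∈ Z, z ∈ A ∧ z ≠ x ∧ ¬ G.Adj x z ∧ deg G A x ≤ deg G A z + s) (hc : 2 ≤ #Z) :
    Reach G A (7 * s + 1) ∨ (G.Adj x y ∧ ∃ Z' ⊆ Z, #Z ≤ #Z' + 1 ∧ ∀ z ∈ Z', G.Adj y z) := by
  by_cases hxy : G.Adj x y
  swap
  · obtain ⟨z, hz, hzy⟩ := exists_mem_ne (s := Z) (by omega) y
    obtain ⟨a, b, c, d⟩ := hZ z hz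
    exact Or.inl ((phase12 hx hy a b hzy d (fun h => hxy h.1) (fun h => c h.1)
      (Or.inl fun h => hxy h.1.symm)).mono (by omega))
  by_cases h2 : #(Z.filter fun z => ¬ G.Adj y z) ≤ 1
  · refine Or.inr ⟨hxy, Z.filter (G.Adj y), filter_subset _ _, ?_, fun z hz => (mem_filter.1 hz).2⟩
    have := card_filter_add_card_filter_not (s := Z) (G.Adj y)
    omega
  · obtain ⟨z, hz, z', hz', hne⟩ := one_lt_card.1 (not_le.1 h2)
    obtain ⟨a, b, c, d⟩ := hZ z (mem_filter.1 hz).1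
    obtain ⟨a', b', c', d'⟩ := hZ z' (mem_filter.1 hz').1
    exact Or.inl (phase12' hx hy a a' b (by rintro rfl; exact c hxy) b'
      (by rintro rfl; exact c' hxy) hne.symm c (mem_filter.1 hz).2 c' (mem_filter.1 hz').2 d d')

theorem three_nonadj {A Z : Finset V} {x : V} {s : ℕ} (hx : IsTopV G A x)
    (hZ : ∀ z ∈ Z, z ∈ A ∧ z ≠ x ∧ ¬ G.Adj x z ∧ deg G A x ≤ deg G A z + s) (hc : 3 ≤ #Z) :
    Reach G A (7 * s + 2) := by
  obtain ⟨z₀, hz₀⟩ : Z.Nonempty := card_pos.1 (by omega)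
  obtain ⟨y, hy, -⟩ := exists_second (G := G) (hZ z₀ hz₀).1 (hZ z₀ hz₀).2.1
  rcases round hx hy hZ (by omega) with h | ⟨hxy, Z', hZ', hc', hadj⟩
  · exact h.mono (by omega)
  by_cases h3 : ∃ z ∈ Z', (priv G A z y).Nonempty
  · obtain ⟨z, hz, hp⟩ := h3
    obtain ⟨a, b, c, d⟩ := hZ z (hZ' hz)
    exact (phase12 hx hy a b (hadj z hz).ne' d (fun h => h.2 (hadj z hz)) (fun h => c h.1)
      (Or.inr ⟨hp, z, mem_priv.2 ⟨a, hadj z hz, c, b⟩⟩)).mono (by omega)
  by_cases hv : Valid G A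
  · exact hv.reach _
  have hR : ({y} : Finset V) ⊆ A := by simpa using hy.1
  have e1 := deg_sdiff_of_adj (G := G) hR (v := x) (by simpa)
  rw [card_singleton] at e1
  have hx' : IsTopV G (A \ {y}) x := by
    refine ⟨by simp [hx.1, hxy.ne], fun w hw => ?_⟩
    by_cases hwx : w = x
    · rw [hwx]
    have hw' := mem_sdiff.1 hw
    have h1 := hy.2.2 w hw'.1 hwx
    have h2 := deg_sdiff_le (G := G) A {y} w
    have h4 := hx.2 y hy.1
    by_contra! h5
    have hyt : IsTopV G A y := ⟨hy.1, fun v hv => (hx.2 v hv).trans (by omega)⟩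
    have := lt_of_not_valid hx hyt hxy.ne hv hw'.1 hwx (by simpa using hw'.2)
    omega
  have hZ'' : ∀ z ∈ Z', z ∈ A \ {y} ∧ z ≠ x ∧ ¬ G.Adj x z ∧
      deg G (A \ {y}) x ≤ deg G (A \ {y}) z + s := by
    intro z hz
    obtain ⟨a, b, c, d⟩ := hZ z (hZ' hz)
    have e := deg_le_sdiff_add (G := G) hR z
    rw [card_singleton] at e
    exact ⟨by simp [a, (hadj z hz).ne'], b, c, by omega⟩
  obtain ⟨z₁, hz₁⟩ : Z'.Nonempty := card_pos.1 (by omega)
  obtain ⟨y₂, hy₂, -⟩ := exists_second (G := G) (hZ'' z₁ hz₁).1 (hZ'' z₁ hz₁).2.1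
  rcases round hx' hy₂ hZ'' (by omega) with h | ⟨hxy₂, Z₂, hZ₂, hc₂, hadj₂⟩
  · exact h.of_sdiff.mono (by simp; omega)
  obtain ⟨z, hz⟩ : Z₂.Nonempty := card_pos.1 (by omega)
  have hy₂A := mem_sdiff.1 hy₂.1
  have hne : y₂ ≠ y := by simpa using hy₂A.2
  have hyy : G.Adj y y₂ := by
    by_contra hn
    exact h3 ⟨z, hZ₂ hz, y₂, mem_priv.2 ⟨hy₂A.1, (hadj₂ z hz).symm, hn, hne⟩⟩
  have e2 := deg_sdiff_of_adj (G := G) hR (v := y₂) (by simpa using hyy.symm)
  rw [card_singleton] at e2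
  obtain ⟨a, b, c, d⟩ := hZ'' z (hZ₂ hz)
  have e3 := hy₂.2.2 z a b
  exact (phase12 (s := s) hx hy hy₂A.1 hy₂.2.1 hne (by omega) (fun h => h.2 hyy)
    (fun h => h.2 hyy) (Or.inl fun h => h.2 hxy₂)).mono (by omega)

theorem window {A W : Finset V} {s : ℕ} (hW : W ⊆ A) (hc : 7 ≤ #W)
    (hs : ∀ w ∈ W, ∀ v ∈ A, deg G A v ≤ deg G A w + s) : Reach G A (7 * s + 10) := by
  obtain ⟨w₀, hw₀⟩ : W.Nonempty := card_pos.1 (by omega)
  obtain ⟨x, hxA, hmax⟩ := exists_max_image A (deg G A) ⟨w₀, hW hw₀⟩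
  have hx : IsTopV G A x := ⟨hxA, hmax⟩
  obtain ⟨w₁, hw₁, hw₁x⟩ := exists_mem_ne (s := W) (by omega) x
  obtain ⟨y, hy, hy'⟩ := exists_second (G := G) (hW hw₁) hw₁x
  let W' := (W.erase x).erase y
  have hc' : 5 ≤ #W' := by
    have := pred_card_le_card_erase (s := W) (a := x)
    have := pred_card_le_card_erase (s := W.erase x) (a := y)
    simp only [W']
    omega
  have hW' : ∀ w ∈ W', w ≠ y ∧ w ≠ x ∧ w ∈ W := by simp [W']
  by_cases h1 : 3 ≤ #(W'.filter fun z => ¬ G.Adj x z)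
  · refine (three_nonadj (s := s) hx (fun z hz => ?_) h1).mono (by omega)
    obtain ⟨a, b⟩ := mem_filter.1 hz
    obtain ⟨c, d, e⟩ := hW' z a
    exact ⟨hW e, d, b, hs z e x hxA⟩
  by_cases h2 : 3 ≤ #(W'.filter fun z => ¬ G.Adj y z)
  · refine (three_nonadj (s := s + 1) hy' (fun z hz => ?_) h2).of_sdiff.mono (by simp; omega)
    obtain ⟨a, b⟩ := mem_filter.1 hz
    obtain ⟨c, d, e⟩ := hW' z a
    refine ⟨by simp [hW e, d], c, b, ?_⟩
    have e1 := deg_le_sdiff_add (G := G) (R := {x}) (by simpa using hxA) z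
    have e2 := deg_sdiff_le (G := G) A {x} y
    have e3 := hs z e y hy.1
    rw [card_singleton] at e1
    omega
  obtain ⟨z, hz, hz'⟩ : ∃ z ∈ W', G.Adj x z ∧ G.Adj y z := by
    by_contra! h
    have : W' ⊆ (W'.filter fun z => ¬ G.Adj x z) ∪ W'.filter fun z => ¬ G.Adj y z := by
      intro z hz
      have := h z hz
      simp only [mem_union, mem_filter]
      tauto
    have := (card_le_card this).trans (card_union_le _ _)
    omega
  obtain ⟨c, d, e⟩ := hW' z hz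
  exact (phase12 (s := s) hx hy (hW e) d c (hs z e x hxA) (fun h => h.2 hz'.2)
    (fun h => h.2 hz'.2) (Or.inl fun h => h.2 hz'.1)).mono (by omega)

end Pool.Agent.Work.MP_3ff6cb_lc
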